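import Mathlib

/-!
For every infinite regular cardinal `κ`, in particular for every weakly compact `κ`, the tree
`T` of all injections from an ordinal into `κ`, ordered by extension, is not `κ`-special, and the
colouring which counts left-to-right minima has no homogeneous chain of order type `κ + 2`.
So `T → (κ ^ n)²_ℵ₀` fails for every `n ≥ 2`.
-/

set_option autoImplicit false

universe u

open Cardinal Ordinal Set

namespace Pool.Agent.Results.MP_7e5099_lc.CountableColours

/-- `κ` is weakly compact: it is uncountable and `κ → (κ)²₂`, that is, for every colouring of the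
pairs of elements of a set of size `κ` by two colours there is a homogeneous subset of
size `κ`. -/
def IsWeaklyCompact (κ : Cardinal.{u}) : Prop :=
  ℵ₀ < κ ∧ ∀ X : Type u, #X = κ → ∀ c : X → X → Fin 2, (∀ x y : X, c x y = c y x) →
    ∃ H : Set X, #H = κ ∧ ∃ i : Fin 2, ∀ x ∈ H, ∀ y ∈ H, x ≠ y → c x y = i

/-- A partial order is a tree if the set of predecessors of each element is well-ordered. -/
def IsTree (T : Type u) [PartialOrder T] : Prop :=
  ∀ x : T, IsChain (· ≤ ·) (Iio x) ∧ (Iio x).WellFoundedOn (· < ·)

/-- `T` is `κ`-special: some map from `T` to the ordinals below `κ` takes different values at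
any two comparable elements. -/
def IsSpecial (κ : Cardinal.{u}) (T : Type u) [PartialOrder T] : Prop :=
  ∃ f : T → Ordinal.{u}, (∀ x : T, f x < κ.ord) ∧ ∀ x y : T, x < y → f x ≠ f y

/-- The partition relation `T → (α)²_ℵ₀`: for every colouring of the pairs of elements of `T` by
natural numbers there is a chain of order type `α`, given as a strictly increasing family indexed
by the ordinals below `α`, all of whose pairs have one colour. -/
def Arrow (T : Type u) [PartialOrder T] (α : Ordinal.{u}) : Prop :=
  ∀ c : T → T → ℕ, (∀ x y : T, c x y = c y x) → ∃ g : Iio α → T, StrictMono g ∧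
    ∃ i : ℕ, ∀ a b : Iio α, a < b → c (g a) (g b) = i

section Tree

variable (L K : Type u) [LinearOrder L] [LinearOrder K]

/-- Injections from an initial segment of `L` to `K`. -/
def Node : Type u :=
  {r : L → Option K // (∀ x y, x ≤ y → r x = none → r y = none) ∧
    ∀ x y k, r x = some k → r y = some k → x = y}

variable {L K}

instance : PartialOrder (Node L K) where
  le r s := ∀ x k, r.1 x = some k → s.1 x = some k
  le_refl r x k h := h
  le_trans r s t h1 h2 x k h := h2 x k (h1 x k h)
  le_antisymm r s h1 h2 := by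
    apply Subtype.ext
    funext x
    cases h : r.1 x with
    | some k => exact (h1 x k h).symm
    | none =>
      cases h' : s.1 x with
      | none => rfl
      | some k => rw [h2 x k h'] at h; exact absurd h (by simp)

omit [LinearOrder K] in
theorem le_def {r s : Node L K} : r ≤ s ↔ ∀ x k, r.1 x = some k → s.1 x = some k := Iff.rfl

omit [LinearOrder K] in
theorem none_of_le {r s : Node L K} (h : r ≤ s) {x : L} (hx : s.1 x = none) : r.1 x = none := by
  cases h' : r.1 x with
  | none => rfl
  | some k => rw [h x k h'] at hx; exact absurd hx (by simp)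

omit [LinearOrder K] in
theorem exists_of_lt {r s : Node L K} (h : r < s) : ∃ x, r.1 x = none ∧ s.1 x ≠ none := by
  by_contra hc
  push Not at hc
  apply h.not_ge
  intro x k hk
  cases h' : r.1 x with
  | none => rw [hc x h'] at hk; exact absurd hk (by simp)
  | some k' => rw [← h.le x k' h', hk]

omit [LinearOrder K] in
theorem comparable {r s t : Node L K} (h1 : r ≤ t) (h2 : s ≤ t) : r ≤ s ∨ s ≤ r := by
  by_contra hc
  push Not at hc
  obtain ⟨hc1, hc2⟩ := hc
  rw [le_def] at hc1 hc2
  push Not at hc1 hc2
  obtain ⟨x, k, hx, hx'⟩ := hc1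
  obtain ⟨y, l, hy, hy'⟩ := hc2
  have hsx : s.1 x = none := by
    cases h' : s.1 x with
    | none => rfl
    | some k' =>
      exfalso; apply hx'
      rw [h']
      have := h2 x k' h'
      rw [h1 x k hx] at this
      exact this.symm
  have hry : r.1 y = none := by
    cases h' : r.1 y with
    | none => rfl
    | some k' =>
      exfalso; apply hy'
      rw [h']
      have := h1 y k' h'
      rw [h2 y l hy] at this
      exact this.symm
  rcases le_total x y with h | h
  · have := s.2.1 x y h hsx
    rw [this] at hy; exact absurd hy (by simp)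
  · have := r.2.1 y x h hry
    rw [this] at hx; exact absurd hx (by simp)

variable [WellFoundedLT L]

omit [LinearOrder K] in
theorem isTree : IsTree (Node L K) := by
  intro x
  refine ⟨fun a ha b hb _ => comparable (le_of_lt ha) (le_of_lt hb), ?_⟩
  have hex : ∀ a : Iio x, {y | a.1.1 y = none}.Nonempty := fun a => by
    obtain ⟨y, hy, -⟩ := exists_of_lt a.2
    exact ⟨y, hy⟩
  let len : Iio x → L := fun a => wellFounded_lt.min {y | a.1.1 y = none} (hex a)
  have hlen : ∀ a b : Iio x, a.1 < b.1 → len a < len b := by
    intro a b hab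
    obtain ⟨z, hz1, hz2⟩ := exists_of_lt hab
    have h1 : a.1.1 (len a) = none := wellFounded_lt.min_mem _ (hex a)
    have h2 : b.1.1 (len b) = none := wellFounded_lt.min_mem _ (hex b)
    have h3 : len a ≤ z := not_lt.1 (wellFounded_lt.not_lt_min {y | a.1.1 y = none} hz1)
    rcases lt_or_ge (len a) (len b) with h | h
    · exact h
    · exact absurd (b.1.2.1 _ _ (h.trans h3) h2) hz2
  refine Subrelation.wf (fun {a b} h => ?_) (InvImage.wf len (wellFounded_lt (α := L)))
  exact hlen a b h

/-- The empty node. -/
def emptyNode : Node L K := ⟨fun _ => none, fun _ _ _ _ => rfl, fun _ _ _ h => by simp at h⟩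

open Classical in
/-- The node determined by a function on an initial segment. -/
noncomputable def mkNode (a : L) (F : ∀ b, b < a → K) : Node L K :=
  if h : ∀ b c (hb : b < a) (hc : c < a), F b hb = F c hc → b = c then
    ⟨fun b => if hb : b < a then some (F b hb) else none, by
      constructor
      · intro x y hxy hx
        beta_reduce at hx ⊢
        by_cases hy : y < a
        · rw [dif_pos (hxy.trans_lt hy)] at hx; exact absurd hx (by simp)
        · rw [dif_neg hy]
      · intro x y k hx hy
        beta_reduce at hx hy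
        by_cases hxa : x < a
        · by_cases hya : y < a
          · rw [dif_pos hxa] at hx
            rw [dif_pos hya] at hy
            exact h x y hxa hya ((Option.some.inj hx).trans (Option.some.inj hy).symm)
          · rw [dif_neg hya] at hy; exact absurd hy (by simp)
        · rw [dif_neg hxa] at hx; exact absurd hx (by simp)⟩
  else emptyNode

omit [LinearOrder K] [WellFoundedLT L] in
open Classical in
theorem mkNode_apply (a : L) (F : ∀ b, b < a → K)
    (h : ∀ b c (hb : b < a) (hc : c < a), F b hb = F c hc → b = c) (b : L) :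
    (mkNode a F).1 b = if hb : b < a then some (F b hb) else none := by
  exact congrFun (congrArg Subtype.val (dif_pos h)) b

/-- The diagonal path of a function. -/
noncomputable def path (f : Node L K → K) : L → K :=
  (wellFounded_lt (α := L)).fix (fun a F => f (mkNode a F))

omit [LinearOrder K] in
theorem path_eq (f : Node L K → K) (a : L) :
    path f a = f (mkNode a (fun b _ => path f b)) := by
  unfold path
  rw [WellFounded.fix_eq]

theorem path_inj (f : Node L K → K) (hf : ∀ x y, x < y → f x ≠ f y) :
    Function.Injective (path f) := by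
  have key : ∀ c : L, ∀ b, b < c → path f b ≠ path f c := by
    intro c
    induction c using WellFoundedLT.induction with
    | ind c ih =>
      intro b hbc
      have hinj : ∀ a, a ≤ c → ∀ x y (_ : x < a) (_ : y < a), path f x = path f y → x = y := by
        intro a hac x y hx hy hxy
        rcases lt_trichotomy x y with h | h | h
        · exact absurd hxy (ih y (hy.trans_le hac) x h)
        · exact h
        · exact absurd hxy.symm (ih x (hx.trans_le hac) y h)
      rw [path_eq f b, path_eq f c]
      apply hf
      have hb' := mkNode_apply b (fun b _ => path f b) (hinj b hbc.le)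
      have hc' := mkNode_apply c (fun b _ => path f b) (hinj c le_rfl)
      apply lt_of_le_not_ge
      · intro x k hx
        rw [hb'] at hx
        rw [hc']
        by_cases hxb : x < b
        · rw [dif_pos hxb] at hx
          rw [dif_pos (hxb.trans hbc)]
          exact hx
        · rw [dif_neg hxb] at hx; exact absurd hx (by simp)
      · intro hle
        have := hle b (path f b) (by rw [hc', dif_pos hbc])
        rw [hb', dif_neg (lt_irrefl b)] at this
        exact absurd this (by simp)
  intro x y hxy
  rcases lt_trichotomy x y with h | h | h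
  · exact absurd hxy (key y x h)
  · exact h
  · exact absurd hxy.symm (key x y h)

/-- The left-to-right minima of `t` outside the domain of `s`. -/
def minima (s t : Node L K) : Set L :=
  {x | s.1 x = none ∧ ∃ k, t.1 x = some k ∧ ∀ y, y < x → s.1 y = none →
    ∀ k', t.1 y = some k' → k < k'}

variable [WellFoundedLT K]

theorem minima_finite (s t : Node L K) : (minima s t).Finite := by
  classical
  have hv : ∀ x : minima s t, ∃ k, t.1 x.1 = some k := fun x => ⟨x.2.2.choose, x.2.2.choose_spec.1⟩
  choose v hv using hv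
  have hanti : ∀ x y : minima s t, x < y → v y < v x := by
    intro x y hxy
    obtain ⟨-, k, hk, hmin⟩ := y.2
    have := hmin x.1 hxy x.2.1 (v x) (hv x)
    rw [hv y] at hk
    rw [Option.some.inj hk]
    exact this
  have : WellFoundedGT (minima s t) := by
    refine ⟨Subrelation.wf (fun {a b} h => ?_) (InvImage.wf v (wellFounded_lt (α := K)))⟩
    exact hanti b a h
  have hfin : Finite (minima s t) := Finite.of_wellFoundedLT_wellFoundedGT (minima s t)
  exact Set.toFinite _

open Classical in
/-- The colouring: the number of left-to-right minima of the larger node outside the domain of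
the smaller one. -/
noncomputable def colour (s t : Node L K) : ℕ :=
  if s ≤ t then (minima s t).ncard else if t ≤ s then (minima t s).ncard else 0

omit [WellFoundedLT L] [WellFoundedLT K] in
theorem colour_symm (s t : Node L K) : colour s t = colour t s := by
  unfold colour
  by_cases h1 : s ≤ t
  · by_cases h2 : t ≤ s
    · rw [le_antisymm h1 h2]
    · rw [if_pos h1, if_neg h2, if_pos h1]
  · by_cases h2 : t ≤ s
    · rw [if_neg h1, if_pos h2, if_pos h2]
    · rw [if_neg h1, if_neg h2, if_neg h2, if_neg h1]

omit [WellFoundedLT L] [WellFoundedLT K] in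
theorem colour_of_lt {s t : Node L K} (h : s < t) : colour s t = (minima s t).ncard := by
  unfold colour
  rw [if_pos h.le]

/-- If `s < t ≤ r` and `d` is a left-to-right minimum of `r` outside `t`, then the colour of
`(s, r)` is larger than the one of `(s, t)`. -/
theorem colour_lt {s t r : Node L K} (hst : s < t) (htr : t ≤ r) {d : L}
    (hd : d ∈ minima s r) (hdt : t.1 d = none) : colour s t < colour s r := by
  rw [colour_of_lt hst, colour_of_lt (hst.trans_le htr)]
  apply Set.ncard_lt_ncard _ (minima_finite s r)
  rw [Set.ssubset_iff_of_subset]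
  · refine ⟨d, hd, ?_⟩
    rintro ⟨-, k, hk, -⟩
    rw [hdt] at hk
    exact absurd hk (by simp)
  · rintro x ⟨h1, k, hk, hmin⟩
    refine ⟨h1, k, htr x k hk, ?_⟩
    intro y hy hsy k' hk'
    apply hmin y hy hsy
    cases h' : t.1 y with
    | none =>
      have := t.2.1 y x hy.le h'
      rw [this] at hk
      exact absurd hk (by simp)
    | some l =>
      have := htr y l h'
      rw [hk'] at this
      exact this.symm

end Tree

theorem Arrow.mono {T : Type u} [PartialOrder T] {α β : Ordinal.{u}} (h : α ≤ β)
    (hT : Arrow T β) : Arrow T α := by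
  intro c hc
  obtain ⟨g, hg, i, hi⟩ := hT c hc
  refine ⟨fun a => g ⟨a.1, a.2.trans_le h⟩, fun a b hab => hg hab, i, fun a b hab => ?_⟩
  exact hi _ _ hab

theorem mk_Iio_ord_lt {κ : Cardinal.{u}} (k : κ.ord.ToType) : #(Iio k) < κ := by
  simpa using Cardinal.mk_Iio_lt k

/-- Weakly compact cardinals are regular. -/
theorem IsWeaklyCompact.isRegular {κ : Cardinal.{u}} (hκ : IsWeaklyCompact κ) :
    κ.IsRegular := by
  classical
  refine ⟨hκ.1.le, ?_⟩
  by_contra hcof
  push Not at hcof
  obtain ⟨S, hS, hScard⟩ := Order.exists_cof_eq κ.ord.ToType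
  rw [Ordinal.cof_toType] at hScard
  have hX : #κ.ord.ToType = κ := by simp
  choose h hh1 hh2 using hS
  obtain ⟨H, hH, i, hi⟩ := hκ.2 κ.ord.ToType hX (fun x y => if h x = h y then 0 else 1)
    (fun x y => by
      by_cases hxy : h x = h y
      · rw [if_pos hxy, if_pos hxy.symm]
      · rw [if_neg hxy, if_neg (fun h' => hxy h'.symm)])
  have hHne : H.Nonempty := by
    rw [Set.nonempty_iff_ne_empty]
    rintro rfl
    rw [Cardinal.mk_eq_zero] at hH
    exact absurd hκ.1 (by rw [← hH]; simp)
  obtain ⟨x0, hx0⟩ := hHne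
  by_cases h0 : i = 0
  · -- `H` is contained in one fibre, which is bounded
    have hsub : H ⊆ Iic (h x0) := by
      intro y hy
      have : h x0 = h y := by
        by_contra hne
        have h1 := hi x0 hx0 y hy (fun h' => hne (by rw [h']))
        rw [if_neg hne, h0] at h1
        exact absurd h1 (by decide)
      rw [mem_Iic, this]
      exact hh2 y
    have h1 : #(Iic (h x0)) < κ := by
      rw [← Set.Iio_insert]
      refine (Cardinal.mk_insert_le).trans_lt ?_
      exact Cardinal.add_lt_of_lt hκ.1.le (mk_Iio_ord_lt _)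
        (Cardinal.one_lt_aleph0.trans hκ.1)
    have h2 := Cardinal.mk_le_mk_of_subset hsub
    rw [hH] at h2
    exact absurd h1 (not_lt.2 h2)
  · -- `h` is injective on `H`
    have hinj : Set.InjOn h H := by
      intro x hx y hy hxy
      by_contra hne
      have h1 := hi x hx y hy hne
      rw [if_pos hxy] at h1
      exact h0 h1.symm
    have h1 : #H ≤ #S :=
      Cardinal.mk_le_of_injective (f := fun x : H => (⟨h x.1, hh1 x.1⟩ : S)) (by
        intro x y hxy
        apply Subtype.ext
        exact hinj x.2 y.2 (congrArg Subtype.val hxy))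
    rw [hH, hScard] at h1
    exact absurd hcof (not_lt.2 h1)

/-- The tree of injections is not special. -/
theorem not_isSpecial (κ : Cardinal.{u}) :
    ¬ IsSpecial κ (Node (Order.succ κ).ord.ToType κ.ord.ToType) := by
  rintro ⟨f, hf1, hf2⟩
  let f' : Node (Order.succ κ).ord.ToType κ.ord.ToType → κ.ord.ToType :=
    fun x => ToType.mk ⟨f x, hf1 x⟩
  have h := path_inj f' (fun x y hxy heq => hf2 x y hxy (by
    have := ToType.mk.injective heq
    exact congrArg Subtype.val this))
  have h1 := Cardinal.mk_le_of_injective h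
  rw [Cardinal.mk_ord_toType, Cardinal.mk_ord_toType] at h1
  exact absurd (Order.lt_succ κ) (not_lt.2 h1)

/-- There is no homogeneous chain of order type `κ + 2`. -/
theorem no_chain {κ : Cardinal.{u}} (hκ : κ.IsRegular) :
    ¬ Arrow (Node (Order.succ κ).ord.ToType κ.ord.ToType) (κ.ord + 2) := by
  classical
  intro hA
  obtain ⟨g, hg, i, hi⟩ := hA colour colour_symm
  have hlt : ∀ o : Ordinal.{u}, o < κ.ord → o < κ.ord + 2 := fun o ho =>
    ho.trans_le (le_self_add)
  have htop1 : κ.ord < κ.ord + 2 := by
    simp
  have htop2 : κ.ord + 1 < κ.ord + 2 :=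
    (add_lt_add_iff_left κ.ord).2 (show (1 : Ordinal.{u}) < 2 by norm_num)
  set p := g ⟨κ.ord, htop1⟩ with hp
  set r := g ⟨κ.ord + 1, htop2⟩ with hr
  have hpr : p < r := hg (by
    show κ.ord < κ.ord + 1
    exact lt_add_of_pos_right _ (by norm_num))
  have hgp : ∀ (o : Ordinal.{u}) (ho : o < κ.ord), g ⟨o, hlt o ho⟩ < p := fun o ho => hg ho
  -- the first point outside all `g ξ`
  obtain ⟨z, hz1, hz2⟩ := exists_of_lt hpr
  have hne : {x | ∀ (o : Ordinal.{u}) (ho : o < κ.ord),
      (g ⟨o, hlt o ho⟩).1 x = none}.Nonempty :=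
    ⟨z, fun o ho => none_of_le (hgp o ho).le hz1⟩
  set d := wellFounded_lt.min _ hne with hd
  have hd1 : ∀ (o : Ordinal.{u}) (ho : o < κ.ord), (g ⟨o, hlt o ho⟩).1 d = none :=
    wellFounded_lt.min_mem _ hne
  have hd2 : ∀ x, x < d → ∃ (o : Ordinal.{u}) (ho : o < κ.ord),
      (g ⟨o, hlt o ho⟩).1 x ≠ none := by
    intro x hx
    by_contra hc
    push Not at hc
    exact wellFounded_lt.not_lt_min {x | ∀ (o : Ordinal.{u}) (ho : o < κ.ord),
      (g ⟨o, hlt o ho⟩).1 x = none} hc hx
  have hdz : d ≤ z := not_lt.1 (wellFounded_lt.not_lt_min {x | ∀ (o : Ordinal.{u})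
    (ho : o < κ.ord), (g ⟨o, hlt o ho⟩).1 x = none} (fun o ho => none_of_le (hgp o ho).le hz1))
  have hrd : ∃ k0, r.1 d = some k0 := by
    cases h' : r.1 d with
    | none => exact absurd (r.2.1 d z hdz h') hz2
    | some k0 => exact ⟨k0, rfl⟩
  obtain ⟨k0, hk0⟩ := hrd
  -- the points below `d` with smaller value
  let B : Set (Order.succ κ).ord.ToType := {x | x < d ∧ ∃ k, r.1 x = some k ∧ k < k0}
  have hBcard : #B < κ := by
    have hv : ∀ x : B, ∃ k : Iio k0, r.1 x.1 = some k.1 := fun x => by
      obtain ⟨-, k, hk, hlt⟩ := x.2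
      exact ⟨⟨k, hlt⟩, hk⟩
    choose v hv using hv
    have hinj : Function.Injective v := by
      intro x y hxy
      apply Subtype.ext
      apply r.2.2 x.1 y.1 (v x).1 (hv x)
      rw [hxy]
      exact hv y
    exact (Cardinal.mk_le_of_injective hinj).trans_lt (mk_Iio_ord_lt k0)
  have hB : ∀ x : B, ∃ (o : Ordinal.{u}) (ho : o < κ.ord), (g ⟨o, hlt o ho⟩).1 x.1 ≠ none :=
    fun x => hd2 x.1 x.2.1
  choose ξ hξ1 hξ2 using hB
  have hsup : iSup ξ < κ.ord :=
    Ordinal.iSup_lt_of_lt_cof (hBcard.trans_eq hκ.cof_ord.symm) hξ1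
  set o0 := iSup ξ with ho0
  have ho1 : o0 + 1 < κ.ord := by
    have := Cardinal.isSuccLimit_ord hκ.aleph0_le
    simpa using this.succ_lt hsup
  have hst : g ⟨o0, hlt o0 hsup⟩ < g ⟨o0 + 1, hlt _ ho1⟩ := hg (by
    show o0 < o0 + 1
    exact lt_add_of_pos_right _ (by norm_num))
  have htr : g ⟨o0 + 1, hlt _ ho1⟩ ≤ r := ((hgp _ ho1).trans hpr).le
  have hle : ∀ x : B, g ⟨ξ x, hlt _ (hξ1 x)⟩ ≤ g ⟨o0, hlt o0 hsup⟩ := by
    intro x
    apply hg.monotone
    show ξ x ≤ o0
    exact Ordinal.le_iSup ξ x
  have hmin : d ∈ minima (g ⟨o0, hlt o0 hsup⟩) r := by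
    refine ⟨hd1 _ hsup, k0, hk0, ?_⟩
    intro y hy hsy k' hk'
    rcases lt_trichotomy k0 k' with h | h | h
    · exact h
    · exfalso
      rw [← h] at hk'
      exact absurd (r.2.2 y d k0 hk' hk0) hy.ne
    · exfalso
      apply hξ2 ⟨y, hy, k', hk', h⟩
      exact none_of_le (hle _) hsy
  have := colour_lt hst htr hmin (hd1 _ ho1)
  rw [hi _ _ (by
      show o0 < o0 + 1
      exact lt_add_of_pos_right _ (by norm_num)), hr, hi _ _ (by
      show o0 < κ.ord + 1
      exact hsup.trans (lt_add_of_pos_right _ (by norm_num)))] at this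
  exact lt_irrefl _ this

/-- Let `κ` be a weakly compact cardinal, or any infinite regular cardinal. There is a tree `T`
which is not `κ`-special and satisfies neither `T → (κ + 2)²_ℵ₀` nor `T → (κ ^ n)²_ℵ₀` for any
`n ≥ 2`. -/
theorem result (κ : Cardinal.{u}) (hκ : IsWeaklyCompact κ ∨ κ.IsRegular) :
    ∃ (T : Type u) (_ : PartialOrder T), IsTree T ∧ ¬ IsSpecial κ T ∧
      ¬ Arrow T (κ.ord + 2) ∧ ∀ n : ℕ, 2 ≤ n → ¬ Arrow T (κ.ord ^ (n : Ordinal.{u})) := by
  have hreg : κ.IsRegular := hκ.elim (fun h => h.isRegular) id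
  refine ⟨Node (Order.succ κ).ord.ToType κ.ord.ToType, inferInstance, isTree,
    not_isSpecial κ, no_chain hreg, ?_⟩
  intro n hn hA
  rw [Ordinal.opow_natCast] at hA
  apply no_chain hreg
  apply Arrow.mono _ hA
  have h2 : (2 : Ordinal.{u}) ≤ κ.ord := by
    have h3 : ω ≤ κ.ord := Cardinal.omega0_le_ord.2 hreg.aleph0_le
    exact (Ordinal.natCast_lt_omega0 2).le.trans h3
  calc κ.ord + 2 ≤ κ.ord + κ.ord := by gcongr
    _ = κ.ord * 2 := by rw [← one_add_one_eq_two, mul_add, mul_one]
    _ ≤ κ.ord * κ.ord := by gcongr
    _ = κ.ord ^ 2 := by rw [pow_two]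
    _ ≤ κ.ord ^ n := pow_le_pow_right₀ ((by norm_num : (1 : Ordinal.{u}) ≤ 2).trans h2) hn

end Pool.Agent.Results.MP_7e5099_lc.CountableColours
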