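import Pool.Agent.Work.MTree.Main

/-!
Let `κ` be a measurable cardinal and let `T` be a tree that is not `κ`-special. For every
finite colouring of the comparable pairs of `T` and every ordinal `α < κ ^ κ` there is a
chain of order type `α` all of whose pairs have the same colour.
-/

set_option autoImplicit false

universe u

open Cardinal Set

namespace Pool.Agent.Results.MP_7e5099_lc.MeasurableTrees

/-- `κ` is a measurable cardinal: it is uncountable, and some set of cardinality `κ` carries an
ultrafilter that contains no singleton and is closed under intersections of fewer than `κ` of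
its members. -/
def IsMeasurable (κ : Cardinal.{u}) : Prop :=
  ℵ₀ < κ ∧ ∃ (X : Type u) (U : Ultrafilter X), #X = κ ∧ (∀ x : X, {x} ∉ U) ∧
    ∀ S : Set (Set X), #S < κ → (∀ s ∈ S, s ∈ U) → ⋂₀ S ∈ U

/-- A partial order is a tree if the set of predecessors of each element is well-ordered. -/
def IsTree (T : Type u) [PartialOrder T] : Prop :=
  ∀ x : T, IsChain (· ≤ ·) (Iio x) ∧ (Iio x).WellFoundedOn (· < ·)

/-- `T` is `κ`-special: some map from `T` to the ordinals below `κ` takes different values at
any two comparable elements. -/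
def IsSpecial (κ : Cardinal.{u}) (T : Type u) [PartialOrder T] : Prop :=
  ∃ f : T → Iio κ.ord, ∀ x y : T, x < y → f x ≠ f y

/-- The partition relation `T → (α)²_k`: for every colouring of the pairs of comparable
elements of `T` by `k` colours there is a chain of order type `α`, given as a strictly
increasing family indexed by the ordinals below `α`, all of whose pairs have one colour. -/
def Arrow (T : Type u) [PartialOrder T] (α : Ordinal.{u}) (k : ℕ) : Prop :=
  ∀ c : T → T → Fin k, ∃ g : Iio α → T, StrictMono g ∧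
    ∃ i : Fin k, ∀ a b : Iio α, a < b → c (g a) (g b) = i

theorem result (κ : Cardinal.{u}) (hκ : IsMeasurable κ) (T : Type u) [PartialOrder T]
    (hT : IsTree T) (hs : ¬ IsSpecial κ T) (k : ℕ) (α : Ordinal.{u})
    (hα : α < κ.ord ^ κ.ord) : Arrow T α k := by
  classical
  obtain ⟨hunc, X, U0, hX, hU0, hU0c⟩ := hκ
  -- transfer the ultrafilter to the well-ordered set of type `κ`
  have hcard : #κ.ord.ToType = κ := by simp
  obtain ⟨e⟩ : Nonempty (X ≃ κ.ord.ToType) := Cardinal.eq.1 (hX.trans hcard.symm)
  let U : Ultrafilter κ.ord.ToType := U0.map e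
  have hUc : CardinalInterFilter (U : Filter κ.ord.ToType) κ := by
    refine ⟨fun S hS hm => ?_⟩
    have h1 : ⋂₀ ((fun s => e ⁻¹' s) '' S) ∈ U0 := by
      apply hU0c
      · exact mk_image_le.trans_lt hS
      · rintro _ ⟨s, hs, rfl⟩
        exact hm s hs
    have h2 : e ⁻¹' (⋂₀ S) ∈ U0 := by
      have h3 : e ⁻¹' (⋂₀ S) = ⋂₀ ((fun s => e ⁻¹' s) '' S) := by
        ext x
        simp
      rw [h3]
      exact h1
    exact h2
  have hU : ∀ x, {x} ∉ U := by
    intro x hx
    have h1 : e ⁻¹' {x} ∈ U0 := hx
    have h2 : e ⁻¹' {x} = {e.symm x} := by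
      ext y
      simp [Equiv.eq_symm_apply]
    rw [h2] at h1
    exact hU0 _ h1
  have hMC := Pool.MTree.MC.of_ultrafilter hunc U hU
  have htype : Ordinal.type (fun a b : κ.ord.ToType => a < b) = κ.ord :=
    Ordinal.type_toType κ.ord
  -- the subtree of nodes with at most `κ` predecessors
  let T' : Set T := {t | #(Iio t) ≤ κ}
  have hdown : ∀ s t : T, s ≤ t → t ∈ T' → s ∈ T' := by
    intro s t hst ht
    exact (mk_le_mk_of_subset (Iio_subset_Iio hst)).trans ht
  have hT' : Pool.MTree.IsTree T' := by
    intro x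
    refine ⟨?_, ?_⟩
    · intro a ha b hb hab
      have h1 : (a : T) ≠ b := fun h => hab (Subtype.ext h)
      have h2 : IsChain (fun p q : T => p ≤ q) (Iio x.1) := (hT x.1).1
      exact h2 (show a.1 ∈ Iio x.1 from ha) (show b.1 ∈ Iio x.1 from hb) h1
    · have h1 := (hT x.1).2
      rw [wellFoundedOn_iff_no_descending_seq] at h1 ⊢
      intro f hf
      exact h1 ⟨⟨fun n => (f n : T), fun a b hab => f.injective (Subtype.ext hab)⟩,
        fun {a b} => f.map_rel_iff⟩ (fun n => hf n)
  have hI : ∀ t : T', #(Iio t) ≤ κ := by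
    intro t
    refine le_trans ?_ (show #(Iio t.1) ≤ κ from t.2)
    refine mk_le_of_injective (f := fun s : Iio t => (⟨s.1.1, s.2⟩ : Iio t.1)) ?_
    intro a b hab
    apply Subtype.ext
    apply Subtype.ext
    exact congrArg (fun z => z.1) hab
  have hns : ¬ Pool.MTree.Spec κ.ord.ToType (univ : Set T') := by
    rintro ⟨f, hf⟩
    have hf' : ∀ x y : T', x < y → f x ≠ f y := fun x y h => hf x (mem_univ _) y (mem_univ _) h
    by_cases hall : ∀ t : T, t ∈ T'
    · apply hs
      refine ⟨fun t => Ordinal.ToType.mk.symm (f ⟨t, hall t⟩), fun x y hxy he => ?_⟩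
      exact hf' ⟨x, hall x⟩ ⟨y, hall y⟩ hxy (Ordinal.ToType.mk.symm.injective he)
    · push Not at hall
      -- a minimal node outside `T'` gives a long chain inside `T'`
      have hwf : WellFounded (fun a b : T => a < b) :=
        Pool.MTree.IsTree.wf (T := T) hT
      obtain ⟨t, ht, hmin⟩ := hwf.has_min {t | t ∉ T'} hall
      have hsub : ∀ s : T, s < t → s ∈ T' := by
        intro s hst
        by_contra h
        exact hmin s h hst
      have h1 : #(Iio t) ≤ #κ.ord.ToType := by
        refine mk_le_of_injective (f := fun s : Iio t => f ⟨s.1, hsub s.1 s.2⟩) ?_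
        intro a b hab
        by_contra hne
        have hne' : a.1 ≠ b.1 := fun h => hne (Subtype.ext h)
        rcases (hT t).1.total a.2 b.2 with h2 | h2
        · have h3 : a.1 < b.1 := lt_of_le_of_ne h2 hne'
          exact hf' ⟨a.1, hsub a.1 a.2⟩ ⟨b.1, hsub b.1 b.2⟩ h3 hab
        · have h3 : b.1 < a.1 := lt_of_le_of_ne h2 hne'.symm
          exact hf' ⟨b.1, hsub b.1 b.2⟩ ⟨a.1, hsub a.1 a.2⟩ h3 hab.symm
      rw [hcard] at h1
      exact ht h1
  intro c
  obtain ⟨g, hg, i, hi⟩ := Pool.MTree.main_small hMC htype U hU hT' hI hns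
    (fun x y : T' => c x y) α hα
  exact ⟨fun x => (g x : T), fun a b hab => hg hab, i, hi⟩

end Pool.Agent.Results.MP_7e5099_lc.MeasurableTrees
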